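import Pool.Agent.S12664

/-!
# Lambda-dendroids need not have the fixed point property for continuous set-valued maps

There is a hereditarily unicoherent, hereditarily decomposable continuum `M` and a map `f` from
`M` to the nonempty closed subsets of `M`, continuous for the Hausdorff metric (and for the
Vietoris topology), such that `x` never lies in `f x`.
-/

set_option autoImplicit false

namespace Pool.Agent.Results.MP_0152c0_gt.LambdaDendroidSetValued

open Set Filter Topology TopologicalSpace

/-- A subcontinuum of `M`: a nonempty, compact, connected subset. -/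
def IsSubcontinuum {M : Type} [MetricSpace M] (A : Set M) : Prop :=
  A.Nonempty ∧ IsCompact A ∧ IsPreconnected A

/-- The subset `K` is the union of two subcontinua, each different from `K`. -/
def IsDecomposable {M : Type} [MetricSpace M] (K : Set M) : Prop :=
  ∃ A B : Set M, IsSubcontinuum A ∧ IsSubcontinuum B ∧ A ≠ K ∧ B ≠ K ∧ K = A ∪ B

/-- Every subcontinuum of `M` with more than one point is decomposable. -/
def HereditarilyDecomposable (M : Type) [MetricSpace M] : Prop :=
  ∀ K : Set M, IsSubcontinuum K → (∃ x ∈ K, ∃ y ∈ K, x ≠ y) → IsDecomposable K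

/-- The intersection of any two subcontinua of `M` is empty or connected. -/
def HereditarilyUnicoherent (M : Type) [MetricSpace M] : Prop :=
  ∀ A B : Set M, IsSubcontinuum A → IsSubcontinuum B → A ∩ B = ∅ ∨ IsConnected (A ∩ B)

/-- `M` is a lambda-dendroid: a continuum (the whole space is nonempty, compact and connected)
that is hereditarily unicoherent and hereditarily decomposable. -/
def IsLambdaDendroid (M : Type) [MetricSpace M] : Prop :=
  IsSubcontinuum (univ : Set M) ∧ HereditarilyUnicoherent M ∧ HereditarilyDecomposable M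

/-- The set-valued map `f` is continuous for the Hausdorff metric on its values, in the
epsilon-delta form. -/
def HausdorffContinuous {M : Type} [MetricSpace M] (f : M → Set M) : Prop :=
  ∀ x : M, ∀ ε : ℝ, 0 < ε → ∃ δ : ℝ, 0 < δ ∧ ∀ y : M, dist y x < δ →
    Metric.hausdorffDist (f y) (f x) < ε

/-- The set-valued map `f` is continuous for the Vietoris topology: for every open `U` the set of
`x` with `f x ⊆ U` and the set of `x` with `f x` meeting `U` are open. -/
def VietorisContinuous {M : Type} [MetricSpace M] (f : M → Set M) : Prop :=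
  ∀ U : Set M, IsOpen U → IsOpen {x | f x ⊆ U} ∧ IsOpen {x | (f x ∩ U).Nonempty}

/-- There are a lambda-dendroid `M` and a map `f` from `M` to the nonempty closed subsets of `M`,
continuous for the Hausdorff metric and for the Vietoris topology, without a fixed point. -/
theorem result : ∃ (M : Type) (_ : MetricSpace M), IsLambdaDendroid M ∧
    ∃ f : M → Set M, (∀ x, (f x).Nonempty ∧ IsClosed (f x)) ∧
      HausdorffContinuous f ∧ VietorisContinuous f ∧ ∀ x, x ∉ f x := by
  by_contra H
  apply Pool.Agent.S12664.result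
  intro M _ _ _ _ hU hD f hf
  by_contra hfix
  apply H
  have sub : ∀ A : Set M, IsSubcontinuum A ↔ IsClosed A ∧ IsConnected A := fun A =>
    ⟨fun h => ⟨h.2.1.isClosed, h.1, h.2.2⟩, fun h => ⟨h.2.1, h.1.isCompact, h.2.2⟩⟩
  refine ⟨M, inferInstance, ⟨?_, ?_, ?_⟩, fun x => (f x : Set M), ?_, ?_, ?_, ?_⟩
  · exact (sub _).2 ⟨isClosed_univ, isConnected_univ⟩
  · intro A B hA hB
    obtain ⟨hA1, hA2⟩ := (sub A).1 hA
    obtain ⟨hB1, hB2⟩ := (sub B).1 hB
    rcases (A ∩ B).eq_empty_or_nonempty with h | h
    · exact Or.inl h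
    · exact Or.inr ⟨h, hU A B hA1 hA2 hB1 hB2⟩
  · intro K hK hK2
    obtain ⟨hK1, hKc⟩ := (sub K).1 hK
    obtain ⟨A, B, hA, hAc, hB, hBc, hAK, hBK, hAB⟩ := hD K hK1 hKc hK2
    exact ⟨A, B, (sub A).2 ⟨hA, hAc⟩, (sub B).2 ⟨hB, hBc⟩, hAK.ne, hBK.ne, hAB.symm⟩
  · exact fun x => ⟨(f x).nonempty, (f x).isCompact.isClosed⟩
  · intro x ε hε
    obtain ⟨δ, hδ, h⟩ := Metric.continuous_iff.1 hf x ε hε
    exact ⟨δ, hδ, fun y hy => h y hy⟩
  · intro U hUo
    let _ : TopologicalSpace (Set M) := TopologicalSpace.vietoris M
    have h := vietoris.continuous_iff.1 (NonemptyCompacts.isEmbedding_coe.continuous_iff.1 hf)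
    refine ⟨h.1 U hUo, ?_⟩
    rw [← isClosed_compl_iff]
    convert h.2 Uᶜ hUo.isClosed_compl using 1
    ext x
    rw [mem_compl_iff, mem_ofPred_eq, not_nonempty_iff_eq_empty, ← disjoint_iff_inter_eq_empty,
      ← subset_compl_iff_disjoint_right]
    rfl
  · exact fun x hx => hfix ⟨x, hx⟩

end Pool.Agent.Results.MP_0152c0_gt.LambdaDendroidSetValued
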